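import Mathlib
import Pool.Agent.Lib.MP_44a246_ntC.C10

/-!
Numerical lemmas for the second and the third step, with the bound `N3 a + r (a + 1) + 1` for the
dimension of the space of the rows.
-/

namespace Pool.Agent.Lib.MP_44a246_ntI

open Pool.Agent.Lib.MP_44a246_ntS
open Pool.Agent.Lib.MP_44a246_ntC

/-- the bound for the dimension of the space of the rows -/
def NI (r a : ℕ) : ℕ := N3 a + r * (a + 1) + 1

theorem NI_pos (r a : ℕ) : 1 ≤ NI r a := by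
  unfold NI
  omega

/-- the least integer which is at least `(a + 1) m / 2` -/
def uI (a m : ℕ) : ℕ := ((a + 1) * m + 1) / 2

theorem uI_bd (a m : ℕ) : (a + 1) * m ≤ 2 * uI a m ∧ 2 * uI a m ≤ (a + 1) * m + 1 := by
  unfold uI
  omega

theorem uI_pos {a m : ℕ} (hm : 1 ≤ m) : 1 ≤ uI a m := by
  have h1 := (uI_bd a m).1
  have h2 : 1 ≤ (a + 1) * m := Nat.mul_pos (Nat.succ_pos a) hm
  omega

theorem uI_le {a m : ℕ} (ha : 1 ≤ a) : uI a m ≤ a * m := by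
  have h1 := (uI_bd a m).2
  have h2 : (a + 1) * m = a * m + m := by ring
  have h3 : m ≤ a * m := Nat.le_mul_of_pos_left _ ha
  omega

theorem uI_150 {a b m d : ℕ} (hab : a ≤ b) (hb : 6 ≤ b) (hm : 1 ≤ m) (h100 : 100 * (b * m) ≤ d) :
    150 * uI a m ≤ d := by
  have h1 := (uI_bd a m).2
  have h2 : (a + 1) * m ≤ (b + 1) * m := Nat.mul_le_mul_right _ (by omega)
  have h3 : (b + 1) * m = b * m + m := by ring
  have h4 : 6 * m ≤ b * m := Nat.mul_le_mul_right _ hb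
  omega

theorem numI1 {a b m r d : ℕ} (ha1 : 1 ≤ a) (hab : a ≤ b) (hm : 1 ≤ m)
    (h100 : 100 * (b * m) ≤ d) (hr : r ≤ m * d) : 4 * NI r a ≤ 9 * (uI a m * d) := by
  have e1 : (a + 1) * m * d ≤ 2 * (uI a m * d) := by
    calc (a + 1) * m * d ≤ 2 * uI a m * d := Nat.mul_le_mul_right _ (uI_bd a m).1
      _ = 2 * (uI a m * d) := by ring
  have e2 : r * (a + 1) ≤ (a + 1) * m * d := by
    calc r * (a + 1) ≤ m * d * (a + 1) := Nat.mul_le_mul_right _ hr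
      _ = (a + 1) * m * d := by ring
  have e3 : 100 * a ≤ d := by
    have h1 : a * 1 ≤ b * m := Nat.mul_le_mul hab hm
    omega
  have e4 : (a + 1) * 1 * (100 * a) ≤ (a + 1) * m * d :=
    Nat.mul_le_mul (Nat.mul_le_mul_left _ hm) e3
  have e5 := two_N3 a
  have e6 : a ≤ a * a := Nat.le_mul_of_pos_left _ ha1
  have e7 : (a + 1) * 1 * (100 * a) = 100 * (a * a) + 100 * a := by ring
  have e8 : (a + 1) * (a + 2) = a * a + 3 * a + 2 := by ring
  unfold NI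
  rw [e7] at e4
  rw [e8] at e5
  generalize a * a = x at *
  generalize (a + 1) * m * d = z at *
  generalize uI a m * d = w at *
  generalize r * (a + 1) = v at *
  omega

section

variable {D u n s H α η σ : ℝ}

/-- Bezout -/
theorem numI3_e {a a' α' : ℝ} {N' : ℝ} (h100 : 100 * a ≤ D) (hu : 1 ≤ u) (h150 : 150 * u ≤ D)
    (hn2 : 200 * n ≤ 3 * D ^ 2) (hH : 0 < H) (hα0 : 0 ≤ α)
    (hα : 21 * (u * α) ≤ H)
    (hη : 700 * η ≤ 157 * (D * H)) (hN' : 2 * D ^ 2 ≤ 25 * N') (ha' : a' ≤ 16 * u)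
    (hα'0 : 0 ≤ α') (hα' : α' * (N' - n) ≤ η) : a' * α + a * α' < H := by
  have hD : 0 < D := by linarith
  have e1 : a' * α ≤ 16 * (u * α) := by
    have := mul_le_mul_of_nonneg_right ha' hα0
    linarith
  have e2 : 0.065 * D ^ 2 ≤ N' - n := by linarith
  have e3 : α' * (0.065 * D ^ 2) ≤ η := (mul_le_mul_of_nonneg_left e2 hα'0).trans hα'
  have e4 : D * (0.065 * (D * α')) ≤ D * (0.225 * H) := by nlinarith
  have e5 : 0.065 * (D * α') ≤ 0.225 * H := le_of_mul_le_mul_left e4 hD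
  have e7 : 100 * (a * α') ≤ D * α' := by
    have := mul_le_mul_of_nonneg_right h100 hα'0
    linarith
  linarith

end

/-- the final computation -/
theorem numI4_c {D N P ρ α Δ R w : ℤ} (hD : 300 ≤ D) (hN2 : 200 * N ≤ 3 * D ^ 2)
    (hα0 : 0 ≤ α) (hΔ : 0 ≤ Δ) (hR : 0 ≤ R) (hρ : ρ ≤ N)
    (hw : 5 * w ≤ 2 * D) (hP : 2 * P = (D - w) * (D - w + 1))
    (hle : α * (P - ρ) ≤ ρ * (2 * α + 3 * Δ) + α + R) :
    3 * (D ^ 2 * α) ≤ D ^ 2 * Δ + 23 * R := by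
  have e1 : α * (P - N) ≤ α * (P - ρ) := mul_le_mul_of_nonneg_left (by linarith) hα0
  have e2 : ρ * (2 * α + 3 * Δ) ≤ N * (2 * α + 3 * Δ) :=
    mul_le_mul_of_nonneg_right hρ (by linarith)
  -- `9 D ^ 2 + 15 D ≤ 50 P`
  have e3 : 9 * D ^ 2 + 15 * D ≤ 50 * P := by
    have h1 : 3 * D ≤ 5 * (D - w) := by linarith
    have h2 : 3 * D + 5 ≤ 5 * (D - w + 1) := by linarith
    have h3 : 3 * D * (3 * D + 5) ≤ 5 * (D - w) * (5 * (D - w + 1)) :=
      mul_le_mul h1 h2 (by linarith) (by linarith)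
    have h4 : 5 * (D - w) * (5 * (D - w + 1)) = 25 * ((D - w) * (D - w + 1)) := by ring
    rw [h4, ← hP] at h3
    linarith
  have e4 : 27 * D ^ 2 ≤ 200 * (P - 3 * N - 1) := by linarith
  have e5 : α * (P - 3 * N - 1) ≤ 3 * (N * Δ) + R := by nlinarith
  have e6 : α * (27 * D ^ 2) ≤ α * (200 * (P - 3 * N - 1)) := mul_le_mul_of_nonneg_left e4 hα0
  have e7 : 200 * (N * Δ) ≤ 3 * (D ^ 2 * Δ) := by
    have := mul_le_mul_of_nonneg_right hN2 hΔ
    linarith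
  have e8 : 0 ≤ D ^ 2 * α := by positivity
  have e9 : 0 ≤ D ^ 2 * Δ := by positivity
  nlinarith

/-- the hypotheses of step C, small degrees -/
theorem numI5 {D a b e s : ℤ} (ha1 : 1 ≤ a) (hab : a ≤ b) (he0 : 0 ≤ e) (hs3 : 3 ≤ s)
    (hD : 100 * b ≤ D) (he : 100 * (b * s * e) ≤ D ^ 2) {H α Δ Θ : ℤ} (hH : 0 < H) (hα0 : 0 ≤ α)
    (hΔ : 0 ≤ Δ) (hΘ : 0 ≤ Θ) (hα : 7 * (α * D ^ 2) ≤ 200 * (s * H))
    (hbig : 27 * D ^ 2 * (Δ + Θ) < H) :
    (e * a) * α + a * (Θ + e * (2 * α + Δ)) < H := by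
  have hD0 : 100 ≤ D := by linarith
  have hD2 : 0 < D ^ 2 := by positivity
  have hse : 0 ≤ s * e := mul_nonneg (by linarith) he0
  have e1 : 100 * (a * (s * e)) ≤ D ^ 2 := by
    have h1 : a * (s * e) ≤ b * (s * e) := mul_le_mul_of_nonneg_right hab hse
    have h2 : b * (s * e) = b * s * e := by ring
    linarith
  have hae : 0 ≤ a * e := mul_nonneg (by linarith) he0
  have e2 : D ^ 2 * (7 * (a * e * α)) ≤ D ^ 2 * (2 * H) := by
    have h1 := mul_le_mul_of_nonneg_left hα hae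
    have h2 := mul_le_mul_of_nonneg_right e1 hH.le
    nlinarith
  have e3 : 7 * (a * e * α) ≤ 2 * H := le_of_mul_le_mul_left e2 hD2
  have e4 : 300 * (a * e) ≤ D ^ 2 := by
    have h1 : 3 * (a * e) ≤ a * (s * e) := by
      have := mul_le_mul_of_nonneg_right hs3 hae
      nlinarith
    linarith
  have e5 : 300 * (a * e * Δ) ≤ D ^ 2 * Δ := by
    have := mul_le_mul_of_nonneg_right e4 hΔ
    linarith
  have e6 : a * Θ ≤ D ^ 2 * Θ := mul_le_mul_of_nonneg_right (by nlinarith) hΘ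
  have e7 : 0 ≤ D ^ 2 * Θ := by positivity
  have e8 : 0 ≤ D ^ 2 * Δ := by positivity
  have e9 : e * a * α + a * (Θ + e * (2 * α + Δ)) =
      3 * (a * e * α) + a * Θ + a * e * Δ := by ring
  rw [e9]
  nlinarith

/-- the hypotheses of step C, bounded degrees -/
theorem numI6 {D a b e M : ℤ} (ha1 : 1 ≤ a) (hab : a ≤ b) (he0 : 0 ≤ e) (heM : e ≤ M)
    (hD : 100 * b ≤ D) {H α Δ Θ R : ℤ}
    (hΔ : 0 ≤ Δ) (hΘ : 0 ≤ Θ) (hR : 0 ≤ R) (hα0 : 0 ≤ α)
    (hα : 3 * (D ^ 2 * α) ≤ D ^ 2 * Δ + 23 * R)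
    (hbig : D ^ 2 * ((27 * D ^ 2 + 2 * b * M) * (Δ + Θ)) + 23 * b * M * R < D ^ 2 * H) :
    (e * a) * α + a * (Θ + e * (2 * α + Δ)) < H := by
  have hD0 : 100 ≤ D := by linarith
  have hb1 : 1 ≤ b := by linarith
  have hD2 : 0 < D ^ 2 := by positivity
  have hM : 0 ≤ M := he0.trans heM
  have hae : a * e ≤ b * M := mul_le_mul hab heM he0 (by linarith)
  have hae0 : 0 ≤ a * e := mul_nonneg (by linarith) he0
  have e9 : e * a * α + a * (Θ + e * (2 * α + Δ)) =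
      3 * (a * e * α) + a * Θ + a * e * Δ := by ring
  rw [e9]
  refine lt_of_mul_lt_mul_left (a := D ^ 2) ?_ hD2.le
  have e1 : 3 * (D ^ 2 * (a * e * α)) ≤ b * M * (D ^ 2 * Δ + 23 * R) := by
    have h1 : a * e * (3 * (D ^ 2 * α)) ≤ b * M * (D ^ 2 * Δ + 23 * R) :=
      mul_le_mul hae hα (by positivity) (mul_nonneg (by linarith) hM)
    linarith
  have e2 : a * Θ ≤ 27 * D ^ 2 * Θ := mul_le_mul_of_nonneg_right (by nlinarith) hΘ
  have e3 : a * e * Δ ≤ b * M * Δ := mul_le_mul_of_nonneg_right hae hΔ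
  have e4 : D ^ 2 * (a * Θ) ≤ D ^ 2 * (27 * D ^ 2 * Θ) := mul_le_mul_of_nonneg_left e2 hD2.le
  have e5 : D ^ 2 * (a * e * Δ) ≤ D ^ 2 * (b * M * Δ) := mul_le_mul_of_nonneg_left e3 hD2.le
  have e6 : 0 ≤ D ^ 2 * (27 * D ^ 2 * Δ) := by positivity
  have hbM : 0 ≤ b * M := mul_nonneg (by linarith) hM
  have e7 : 0 ≤ b * M * (D ^ 2 * Δ) := mul_nonneg hbM (by positivity)
  have e8 : 0 ≤ b * M * R := mul_nonneg hbM hR
  have e10 : 0 ≤ b * M * (D ^ 2 * Θ) := mul_nonneg hbM (by positivity)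
  nlinarith

end Pool.Agent.Lib.MP_44a246_ntI
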