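import Mathlib

/-!
The choice of the parameters.
-/

namespace Pool.Agent.Lib.MP_44a246_ntI

/-- the main inequality, small `x` -/
theorem numI_coreA {x c k b y ρ : ℝ} (hb : 6 ≤ b) (hy : 100 ≤ y) (hyρ : 100 * ρ ^ 2 ≤ y)
    (hρ : 1 ≤ ρ) (hc : 0 ≤ c) (hx : 0 ≤ x) (h2 : c + 3 * y - 4 ≤ k)
    (h4 : y * b - y / 25 + 1 ≤ x + k) :
    63 * x + 21 * c + 21 * ρ + 280 * ρ ^ 2 * b ^ 2 + 60 * b ≤
      19 * b * x + 20 * b * k + 20 * b * ρ := by
  have hb2 : 0 ≤ b ^ 2 := by positivity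
  have e1 : 280 * ρ ^ 2 * b ^ 2 ≤ 2.8 * y * b ^ 2 := by
    have := mul_le_mul_of_nonneg_right hyρ hb2
    linarith
  have e2 : 21 * ρ ≤ 20 * b * ρ := by nlinarith
  have hk : 296 ≤ k := by linarith
  have e3 : 8.5 * b * x ≤ (19 * b - 63) * x := mul_le_mul_of_nonneg_right (by linarith) hx
  have e4 : 16.5 * b * k ≤ (20 * b - 21) * k := mul_le_mul_of_nonneg_right (by linarith) (by linarith)
  have e5 : 8.5 * b * (y * b - y / 25 + 1) ≤ 8.5 * b * (x + k) :=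
    mul_le_mul_of_nonneg_left h4 (by linarith)
  have e6 : 8 * b * 296 ≤ 8 * b * k := mul_le_mul_of_nonneg_left hk (by linarith)
  have e7 : 0 ≤ y * b * (b - 6) := by
    have : 0 ≤ y * b := by positivity
    exact mul_nonneg this (by linarith)
  have e8 : 0 ≤ y * b := by positivity
  nlinarith

/-- the main inequality, large `x` -/
theorem numI_coreB {x c k p b y ρ : ℝ} (hb : 6 ≤ b) (hy : 100 ≤ y) (hyρ : 100 * ρ ^ 2 ≤ y)
    (hρ : 1 ≤ ρ) (hc : 0 ≤ c) (hx : 0 ≤ x) (hp : 1000 * p ≤ 755 * (b + 1))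
    (h2 : c + 3 * y - 4 ≤ k) (h3 : x + c ≤ y * (b + 1) + 1)
    (h4 : y * b - y / 25 + 1 ≤ x + k) :
    21 * (p + 1) * x + 21 * c + 21 * ρ + 280 * ρ ^ 2 * b ^ 2 + 20 * b * (p + 1) ≤
      19 * b * x + 20 * b * k + 20 * b * ρ := by
  have hb2 : 0 ≤ b ^ 2 := by positivity
  have e1 : 280 * ρ ^ 2 * b ^ 2 ≤ 2.8 * y * b ^ 2 := by
    have := mul_le_mul_of_nonneg_right hyρ hb2
    linarith
  have e2 : 21 * ρ ≤ 20 * b * ρ := by nlinarith
  have hk : 3 * y - 4 ≤ k := by linarith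
  have e3 : 21 * (p + 1) * x ≤ (15.855 * b + 36.855) * x :=
    mul_le_mul_of_nonneg_right (by linarith) hx
  have e4 : 20 * b * (p + 1) ≤ 20 * b * (0.755 * (b + 1) + 1) :=
    mul_le_mul_of_nonneg_left (by linarith) (by linarith)
  have e5 : 15.1 * b ^ 2 ≤ 0.151 * (y * b ^ 2) := by
    have := mul_le_mul_of_nonneg_right hy hb2
    linarith
  have e6 : 35.1 * b ≤ 0.351 * (y * b) := by
    have := mul_le_mul_of_nonneg_right hy (by linarith : (0 : ℝ) ≤ b)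
    linarith
  have e7 : 0 ≤ (3.145 * b - 36.855) * x + (20 * b - 21) * k + 63 * y - 84 - 2.951 * (y * b ^ 2) -
      0.351 * (y * b) := by
    rcases le_total 36.855 (3.145 * b) with h | h
    · have g1 : (3.145 * b - 36.855) * (y * b - y / 25 + 1 - k) ≤ (3.145 * b - 36.855) * x :=
        mul_le_mul_of_nonneg_left (by linarith) (by linarith)
      have g2 : (16.855 * b + 15.855) * (3 * y - 4) ≤ (16.855 * b + 15.855) * k :=
        mul_le_mul_of_nonneg_left hk (by linarith)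
      have g3 : 0 ≤ y * b ^ 2 := by positivity
      have g4 : 100 * b ≤ y * b := mul_le_mul_of_nonneg_right hy (by linarith)
      nlinarith
    · have g1 : (36.855 - 3.145 * b) * x ≤ (36.855 - 3.145 * b) * (y * (b + 1) + 1) :=
        mul_le_mul_of_nonneg_left (by linarith) (by linarith)
      have g2 : (20 * b - 21) * (3 * y - 4) ≤ (20 * b - 21) * k :=
        mul_le_mul_of_nonneg_left hk (by linarith)
      have g3 : 0 ≤ y * b ^ 2 := by positivity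
      have g4 : 100 * b ≤ y * b := mul_le_mul_of_nonneg_right hy (by linarith)
      have g5 : 6 * y ≤ y * b := by nlinarith
      nlinarith
  nlinarith

/-- **The choice of the parameters.** -/
theorem exists_numbers {r c s ρ σ D m : ℕ} (hr : 2 ≤ r) (hρ : 1 ≤ ρ) (h4 : 4 * ρ ≤ σ)
    (hs : s + 3 ≤ σ) (hD : 150 * σ ≤ D) (hν : r + c ≤ ρ * D) (hm : r + c + 75 * ρ * σ ≤ m) :
    ∃ b k p₁ : ℕ, 6 ≤ b ∧ 25 * σ * b ≤ D ∧ k + s + r + 4 = max (m + s) (ρ * D) ∧ c + 11 ≤ k ∧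
      9 * c + 700 * ρ ≤ 20 * k ∧ 20 * (r + 2 + c) < 9 * (k - 1) * (p₁ + 1) ∧
      b * (r + 2) + 21 * ((p₁ + 1) * (r + 2) + c + ρ) + 20 * b * ρ * (12 * b * ρ + 2 * b) +
        20 * b * (p₁ + 1) ≤ 20 * b * (k + r + 2 + ρ) := by
  have hσ : 0 < 25 * σ := by omega
  have hρσ : 4 ≤ ρ * σ := by nlinarith
  have hρ2 : 4 * (ρ * ρ) ≤ ρ * σ := by nlinarith
  have hσσ : σ ≤ ρ * σ := Nat.le_mul_of_pos_left _ hρ
  have e75 : 75 * ρ * σ = 75 * (ρ * σ) := by ring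
  rw [e75] at hm
  obtain ⟨k, hk⟩ : ∃ k, k + s + r + 4 = max (m + s) (ρ * D) :=
    ⟨max (m + s) (ρ * D) - (s + r + 4), by
      have := le_max_left (m + s) (ρ * D)
      omega⟩
  have hk1 : m + s ≤ k + s + r + 4 := hk ▸ le_max_left _ _
  have hk2 : ρ * D ≤ k + s + r + 4 := hk ▸ le_max_right _ _
  have hkc : c + 75 * (ρ * σ) ≤ k + 4 := by omega
  set b := D / (25 * σ) with hb
  have hb1 : 25 * σ * b ≤ D := Nat.mul_div_le _ _
  have hb2 : D < 25 * σ * (b + 1) := by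
    have := Nat.lt_mul_div_succ D hσ
    simpa [hb] using this
  have hb6 : 6 ≤ b := by
    rw [hb, Nat.le_div_iff_mul_le hσ]
    omega
  have hk0 : 0 < 9 * (k - 1) := by omega
  set p := 20 * (r + 2 + c) / (9 * (k - 1)) with hp
  have hp1 : 9 * (k - 1) * p ≤ 20 * (r + 2 + c) := Nat.mul_div_le _ _
  have hp2 : 20 * (r + 2 + c) < 9 * (k - 1) * (p + 1) := by
    have := Nat.lt_mul_div_succ (20 * (r + 2 + c)) hk0
    simpa [hp] using this
  refine ⟨b, k, p, hb6, hb1, hk, by omega, ?_, hp2, ?_⟩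
  · have : ρ ≤ ρ * ρ := Nat.le_mul_of_pos_left _ hρ
    omega
  -- real numbers
  have R_b : (6 : ℝ) ≤ b := by exact_mod_cast hb6
  have R_ρ : (1 : ℝ) ≤ ρ := by exact_mod_cast hρ
  have R_c : (0 : ℝ) ≤ c := Nat.cast_nonneg c
  obtain ⟨y, hy⟩ : ∃ y : ℝ, y = 25 * (ρ * σ) := ⟨_, rfl⟩
  have R_y : 100 ≤ y := by
    have : (4 : ℝ) ≤ (ρ : ℝ) * σ := by exact_mod_cast hρσ
    rw [hy]
    linarith
  have R_yρ : 100 * (ρ : ℝ) ^ 2 ≤ y := by
    have : 4 * ((ρ : ℝ) * ρ) ≤ (ρ : ℝ) * σ := by exact_mod_cast hρ2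
    rw [hy]
    nlinarith
  have R_x : (0 : ℝ) ≤ (r : ℝ) + 2 := by positivity
  have R_2 : (c : ℝ) + 3 * y - 4 ≤ k := by
    have : (c : ℝ) + 75 * ((ρ : ℝ) * σ) ≤ k + 4 := by exact_mod_cast hkc
    rw [hy]
    linarith
  have R_3 : (r : ℝ) + 2 + c ≤ y * (b + 1) + 1 := by
    have h1 : r + c + 1 ≤ 25 * (ρ * σ) * (b + 1) := by
      have h2 : ρ * D < ρ * (25 * σ * (b + 1)) := Nat.mul_lt_mul_of_pos_left hb2 hρ
      have h3 : ρ * (25 * σ * (b + 1)) = 25 * (ρ * σ) * (b + 1) := by ring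
      omega
    have h2 : (r : ℝ) + c + 1 ≤ 25 * ((ρ : ℝ) * σ) * (b + 1) := by exact_mod_cast h1
    rw [hy]
    linarith
  have R_4 : y * b - y / 25 + 1 ≤ (r : ℝ) + 2 + k := by
    have h1 : 25 * (ρ * σ) * b ≤ k + s + r + 4 := by
      refine le_trans ?_ hk2
      calc 25 * (ρ * σ) * b = ρ * (25 * σ * b) := by ring
        _ ≤ ρ * D := Nat.mul_le_mul_left _ hb1
    have h2 : 25 * ((ρ : ℝ) * σ) * b ≤ k + s + r + 4 := by exact_mod_cast h1
    have h3 : (s : ℝ) + 3 ≤ (ρ : ℝ) * σ := by exact_mod_cast hs.trans hσσ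
    rw [hy]
    linarith
  have R_k : (1 : ℝ) ≤ k := by
    have : 1 ≤ k := by omega
    exact_mod_cast this
  have R_p : 9 * ((k : ℝ) - 1) * p ≤ 20 * ((r : ℝ) + 2 + c) := by
    have h1 : ((9 * (k - 1) * p : ℕ) : ℝ) ≤ ((20 * (r + 2 + c) : ℕ) : ℝ) := by exact_mod_cast hp1
    have h2 : ((k - 1 : ℕ) : ℝ) = (k : ℝ) - 1 := by
      rw [Nat.cast_sub (by omega), Nat.cast_one]
    push_cast at h1
    rw [h2] at h1
    exact h1
  have R_p0 : (0 : ℝ) ≤ p := Nat.cast_nonneg p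
  -- `9 p (c + 3 y - 5) ≤ 20 (x + c)`
  have R_5 : 9 * (c + (3 * y - 5)) * p ≤ 20 * ((r : ℝ) + 2 + c) := by
    refine le_trans ?_ R_p
    exact mul_le_mul_of_nonneg_right (by linarith) R_p0
  have key : 21 * ((p : ℝ) + 1) * (r + 2) + 21 * c + 21 * ρ + 280 * (ρ : ℝ) ^ 2 * (b : ℝ) ^ 2 +
      20 * b * (p + 1) ≤ 19 * b * (r + 2) + 20 * b * k + 20 * b * ρ := by
    rcases le_or_gt ((r : ℝ) + 2) (3 * y - 5) with h | h
    · have hp3 : (p : ℝ) ≤ 2 := by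
        have h1 : p < 3 := by
          by_contra hcon
          have h2 : (3 : ℝ) ≤ p := by
            have : 3 ≤ p := by omega
            exact_mod_cast this
          have h3 : 9 * (c + (3 * y - 5)) * 3 ≤ 9 * (c + (3 * y - 5)) * (p : ℝ) :=
            mul_le_mul_of_nonneg_left h2 (by linarith)
          linarith
        have h2 : p ≤ 2 := by omega
        exact_mod_cast h2
      have h5 := numI_coreA R_b R_y R_yρ R_ρ R_c R_x R_2 R_4
      have h6 : 21 * ((p : ℝ) + 1) * (r + 2) ≤ 63 * (r + 2) :=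
        mul_le_mul_of_nonneg_right (by linarith) R_x
      have h7 : 20 * (b : ℝ) * (p + 1) ≤ 60 * b := by nlinarith
      linarith
    · refine numI_coreB R_b R_y R_yρ R_ρ R_c R_x ?_ R_2 R_3 R_4
      have h1 : 9 * (3 * y - 5) * p ≤ 20 * ((r : ℝ) + 2) := by
        rcases le_or_gt 20 (9 * (p : ℝ)) with h2 | h2
        · nlinarith
        · nlinarith
      by_contra hcon
      have hcon := not_le.1 hcon
      have h2 : 9 * (3 * y - 5) * (755 * ((b : ℝ) + 1)) < 9 * (3 * y - 5) * (1000 * p) :=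
        mul_lt_mul_of_pos_left hcon (by linarith)
      nlinarith
  have key2 : (b : ℝ) * (r + 2) + 21 * ((p + 1) * (r + 2) + c + ρ) +
      20 * b * ρ * (12 * b * ρ + 2 * b) + 20 * b * (p + 1) ≤ 20 * b * (k + r + 2 + ρ) := by
    have h1 : 40 * (b : ℝ) ^ 2 * ρ ≤ 40 * (b : ℝ) ^ 2 * (ρ : ℝ) ^ 2 := by
      refine mul_le_mul_of_nonneg_left ?_ (by positivity)
      nlinarith
    nlinarith
  exact_mod_cast key2

end Pool.Agent.Lib.MP_44a246_ntI
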