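import Mathlib
import Pool.Agent.Lib.MP_44a246_ntA.P14
import Pool.Agent.Lib.MP_44a246_ntE.E25
import Pool.Agent.Lib.MP_44a246_ntI.I02

/-!
The height theorem for several forms, with Step A of an absolute constant: the curve.
-/

namespace Pool.Agent.Lib.MP_44a246_ntI

open Pool.Agent.Lib.MP_44a246_nt
open Pool.Agent.Lib.MP_44a246_ntL
open Pool.Agent.Lib.MP_44a246_ntS
open Pool.Agent.Lib.MP_44a246_ntX
open Pool.Agent.Lib.MP_44a246_ntG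
open Pool.Agent.Lib.MP_44a246_ntK
open Pool.Agent.Lib.MP_44a246_ntF
open Pool.Agent.Lib.MP_44a246_ntC
open Pool.Agent.Lib.MP_44a246_ntA
open Pool.Agent.Lib.MP_44a246_ntE
open Pool.Agent.Lib.MP_e52354_nt
open WithZero Module Polynomial

/-- the bound for the dimension of the space of the rows -/
theorem finVJ {κ L : Type*} [Field κ] [IsAlgClosed κ] [CharZero κ] [Field L] [CharZero L]
    [Algebra κ L] (h : IsFF κ L) {n d : ℕ} (X : DatG κ (L := L) n d) : FinVJ X := by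
  intro a A P ha hCA hmon hP hPA hspan J
  have h1 := finrank_VJ_new h X J hCA hmon (fun i j hij => by
    rw [← hPA, deh_coeff hP, if_neg (by omega)]) hspan
  have h2 := two_N3 a
  have h3 : 2 * J.card * (a + 1) = 2 * (J.card * (a + 1)) := by ring
  rw [h3, ← h2] at h1
  omega

/-- **The height theorem for several forms**, with logarithmic rows: the curve. -/
theorem smallI_joint {κ L : Type*} [Field κ] [IsAlgClosed κ] [CharZero κ] [Field L] [CharZero L]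
    [Algebra κ L] (h : IsFF κ L) {n p r₀ b g k c l p₁ q M D d₀ : ℕ} {d : Fin p → ℕ}
    {Λ : Type*} [Fintype Λ]
    (hb : 6 ≤ b) (hr₀1 : 1 ≤ r₀) (hg : 1 ≤ g) (hl : 1 ≤ l) (h100 : ∀ j, 100 * (b * l) ≤ d j)
    (hrl : ∀ j, r₀ + c ≤ l * d j)
    (hq : ∀ j, 50 * (b * (q + 3)) + 5 * Fintype.card Λ ≤ 2 * d j)
    (hk : ∀ A : Finset (Fin p), A.card = g → k + q + r₀ + 4 ≤ ∑ j ∈ A, d j)
    (hkc : c + 11 ≤ k) (hkg : 9 * c + 700 * g ≤ 20 * k)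
    (hp : 20 * (2 + r₀ + c) < 9 * (k - 1) * (p₁ + 1))
    (hN : b * (2 + r₀) + 21 * ((p₁ + 1) * (2 + r₀) + c + g) +
      20 * b * (g * (12 * (b * l) + 2 * b)) + 20 * b * (p₁ + 1) ≤
        20 * b * (k + (2 + r₀)) + 20 * b * g)
    (hd₀ : ∀ j, d₀ ≤ d j) (hd₀1 : 1 ≤ d₀) (hD : ∀ j, d j ≤ D) (X : DatC κ (L := L) n d)
    {γ : Type*} [Fintype γ] (hc : Fintype.card γ + Fintype.card Λ ≤ c) {β : γ → L}
    (hβ : ∀ t, ∀ w : Place κ L, w.1 (β t) ≤ 1)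
    {η : Λ → L} (hη : ∀ k, η k ≠ 0) {t : Λ → ℕ} {ε : Place κ L → ℕ}
    (hε : (Function.support ε).Finite)
    (hηε : ∀ w : Place κ L, (∀ k, w.1 (η k) = vmax w.1 X.x ^ t k) ∨ 1 ≤ ε w)
    (hQ : g ≤ finrank L ((fU X ⊔ fB X β ⊔ MP_44a246_ntR.fL X η) ⊓ MP_44a246_ntR.xsp d X.x :
      Submodule L (ES (n + 1) d → L)))
    (hr₀ : finrank L (fU X) ≤ r₀) {E₀ : ℤ}
    (hE₀ : 0 ≤ E₀) (hR : X.R + ∑ᶠ w, (ε w : ℤ) ≤ q * height κ X.x + E₀)
    {Θ : ℤ} (hΘ : 0 ≤ Θ) :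
    (d₀ : ℤ) ^ 2 * height κ X.x ≤
        (d₀ : ℤ) ^ 2 * ((27 * D ^ 2 + 2 * b * M + (3 + r₀) * ((3 + r₀) * (3 + r₀) + c)) *
          (X.Δ + E₀ + Θ)) + 23 * b * M * X.R ∨
      ∃ j, SmallI (X.blk j) b q ∧
        (d j : ℤ) ^ 2 * ((27 * d j ^ 2 + 2 * b * M) * (X.Δ + E₀ + Θ)) + 23 * b * M * X.R <
          (d j : ℤ) ^ 2 * height κ X.x := by
  have hΔ := X.Δ_nonneg
  have hR0 := X.R_nonneg
  have hΔE : 0 ≤ X.Δ + E₀ := add_nonneg hΔ hE₀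
  have hΔEΘ : 0 ≤ X.Δ + E₀ + Θ := add_nonneg hΔE hΘ
  rcases le_or_gt ((d₀ : ℤ) ^ 2 * height κ X.x)
    ((d₀ : ℤ) ^ 2 * ((27 * D ^ 2 + 2 * b * M + (3 + r₀) * ((3 + r₀) * (3 + r₀) + c)) *
      (X.Δ + E₀ + Θ)) + 23 * b * M * X.R)
    with hle | hbig
  · exact Or.inl hle
  right
  have hd₀' : (1 : ℤ) ≤ d₀ := by exact_mod_cast hd₀1
  have hd₀2 : (0 : ℤ) < (d₀ : ℤ) ^ 2 := by positivity
  have hM1 : (0 : ℤ) ≤ 23 * b * M * X.R := mul_nonneg (by positivity) hR0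
  obtain ⟨K, hK⟩ : ∃ K : ℤ, K = (3 + r₀) * ((3 + r₀) * (3 + r₀) + c) := ⟨_, rfl⟩
  have hK0 : 0 ≤ K := by
    rw [hK]
    positivity
  rw [← hK] at hbig
  set Y := (27 * (D : ℤ) ^ 2 + 2 * b * M + K) * (X.Δ + E₀ + Θ) with hY
  have hY1 : Y < height κ X.x := by
    refine lt_of_mul_lt_mul_left ?_ hd₀2.le
    linarith
  have hY0 : 0 ≤ Y := mul_nonneg (by positivity) hΔEΘ
  have hpos : 0 < height κ X.x := lt_of_le_of_lt hY0 hY1
  -- the bound in every block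
  have hblk : ∀ j, (d j : ℤ) ^ 2 * ((27 * d j ^ 2 + 2 * b * M) *
      (X.Δ + E₀ + Θ)) + 23 * b * M * X.R < (d j : ℤ) ^ 2 * height κ X.x := by
    intro j
    have e1 : (d₀ : ℤ) ≤ d j := by exact_mod_cast hd₀ j
    have e2 : (d j : ℤ) ≤ D := by exact_mod_cast hD j
    have e3 : (d₀ : ℤ) ^ 2 ≤ (d j : ℤ) ^ 2 := pow_le_pow_left₀ (by linarith) e1 2
    have e4 : (d j : ℤ) ^ 2 ≤ (D : ℤ) ^ 2 := pow_le_pow_left₀ (by linarith) e2 2
    have e5 : (27 * (d j : ℤ) ^ 2 + 2 * b * M) * (X.Δ + E₀ + Θ) ≤ Y :=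
      mul_le_mul_of_nonneg_right (by linarith) hΔEΘ
    have e6 : (d j : ℤ) ^ 2 * ((27 * d j ^ 2 + 2 * b * M) * (X.Δ + E₀ + Θ)) ≤
        (d j : ℤ) ^ 2 * Y := mul_le_mul_of_nonneg_left e5 (by positivity)
    have e7 : (d₀ : ℤ) ^ 2 * (height κ X.x - Y) ≤ (d j : ℤ) ^ 2 * (height κ X.x - Y) :=
      mul_le_mul_of_nonneg_right e3 (by linarith)
    linarith
  have h600 : ∀ j, 600 ≤ d j := by
    intro j
    have h1 := h100 j
    have h2 : 6 * 1 ≤ b * l := Nat.mul_le_mul hb hl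
    omega
  -- step A
  obtain ⟨j, hxi, a₁, A₁, g1, g2, g3, g4, g5, -⟩ := stepA_sharp h (b := b) (g := g) (k := k) (c := c)
    (M := l) (p₁ := p₁) (q := q) (d := d) (m := fun _ => l) hr₀1 (by omega) hg (fun _ => hl)
    (fun _ => le_rfl) (fun j => by have := h100 j; omega) (fun j => by have := h600 j; omega) hk hkc
    hkg hp hN X hc hβ hη hε hηε hQ hr₀ hE₀ hR (by
      refine lt_of_le_of_lt ?_ hY1
      have e1 : (((3 + r₀) * ((3 + r₀) * (3 + r₀) + c) : ℕ) : ℤ) = K := by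
        rw [hK]
        push_cast
        ring
      rw [e1]
      have e2 : K * (X.Δ + E₀) ≤ K * (X.Δ + E₀ + Θ) :=
        mul_le_mul_of_nonneg_left (by linarith) hK0
      have e3 : 0 ≤ (27 * (D : ℤ) ^ 2 + 2 * b * M) * (X.Δ + E₀ + Θ) :=
        mul_nonneg (by positivity) hΔEΘ
      rw [hY, add_mul (27 * (D : ℤ) ^ 2 + 2 * b * M) K]
      linarith)
  refine ⟨j, ?_, hblk j⟩
  have hdj : (1 : ℤ) ≤ (d j : ℤ) ^ 2 := by
    have e1 : (1 : ℤ) ≤ d j := by exact_mod_cast hd₀1.trans (hd₀ j)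
    nlinarith
  refine smallI_block h (r := r₀ + c) (r₀ := r₀) (m := l) (q := q) hl hb (h100 j) (hq j) (hrl j)
    (X.blk j) (finVJ h (X.blk j)) hβ hη hε hηε (row_v_memL X hxi) ((X.finrank_blk_Ux j).trans ((finrank_gspan_le_fU X).trans hr₀))
    (by omega) hE₀ hR ⟨a₁, A₁, g1, g2, g3, g4, g5⟩ ?_
  have k1 := hblk j
  have k2 : (27 * (d j : ℤ) ^ 2 + 2 * b * M) * (X.Δ + E₀ + Θ) < height κ X.x := by
    refine lt_of_mul_lt_mul_left ?_ (by linarith : (0 : ℤ) ≤ (d j : ℤ) ^ 2)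
    linarith
  have k3 : 0 ≤ (2 * b * M : ℤ) * (X.Δ + E₀ + Θ) :=
    mul_nonneg (by positivity) hΔEΘ
  have k4 : 0 ≤ 27 * (d j : ℤ) ^ 2 * Θ := mul_nonneg (by positivity) hΘ
  have k5 : X.Δ = (X.blk j).Δ := rfl
  have k6 : height κ X.x = height κ (X.blk j).x := rfl
  rw [← k5, ← k6]
  linarith

end Pool.Agent.Lib.MP_44a246_ntI
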