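import Mathlib
import Pool.Agent.Lib.MP_44a246_ntI.I03
import Pool.Agent.Lib.MP_44a246_ntE.E31
import Pool.Agent.Lib.MP_44a246_ntR.R07
import Pool.Agent.Lib.MP_44a246_ntU.U14
import Pool.Agent.Lib.MP_e52354_ntV.V3

/-!
The height theorem over the base field, the case without boundary; curves of degree at most `b`,
with Step A of an absolute constant.
-/

namespace Pool.Agent.Lib.MP_44a246_ntI

open Pool.Agent.Lib.MP_44a246_nt
open Pool.Agent.Lib.MP_44a246_ntF
open Pool.Agent.Lib.MP_44a246_ntC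
open Pool.Agent.Lib.MP_44a246_ntL
open Pool.Agent.Lib.MP_44a246_ntS
open Pool.Agent.Lib.MP_44a246_ntX
open Pool.Agent.Lib.MP_44a246_ntD
open Pool.Agent.Lib.MP_44a246_ntG
open Pool.Agent.Lib.MP_44a246_ntU
open Pool.Agent.Lib.MP_44a246_ntZ
open Pool.Agent.Lib.MP_44a246_ntK
open Pool.Agent.Lib.MP_44a246_ntR
open Pool.Agent.Lib.MP_44a246_ntE
open Pool.Agent.Lib.MP_e52354_nt
open Pool.Agent.Lib.MP_e52354_ntV
open WithZero Module

universe u v w

/-- **The height theorem over the base field**, the case without boundary and with curves of degree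
at most `b`; Step A with an absolute constant. -/
theorem heightI_base {κ : Type u} {K : Type v} [Field κ] [IsAlgClosed κ] [CharZero κ] [Field K]
    [CharZero K] [Algebra κ K] (hK : IsFF κ K) (htr : Cardinal.aleph0 ≤ Algebra.trdeg ℚ κ)
    {k : Type*} [Field k] [CharZero k] [Algebra k K]
    (hk : Algebra.trdeg ℚ k < Cardinal.aleph0) {n p r ρ σ D c s b k' p₁ P Q m : ℕ}
    {d : Fin p → ℕ} (hp : 1 ≤ p) (hr : 1 ≤ r) (hρ : 1 ≤ ρ) (h4 : 4 * ρ ≤ σ) (hs : s + 3 ≤ σ)
    (hν : r + c ≤ ρ * D) (hb : 6 ≤ b) (hbD : 25 * σ * b ≤ D)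
    (hkD : k' + s + r + 4 ≤ max (m + s) (ρ * D))
    (hkc : c + 11 ≤ k') (hkg : 9 * c + 700 * ρ ≤ 20 * k')
    (hp₁ : 20 * (r + 2 + c) < 9 * (k' - 1) * (p₁ + 1))
    (hN : b * (r + 2) + 21 * ((p₁ + 1) * (r + 2) + c + ρ) + 20 * b * ρ * (12 * b * ρ + 2 * b) +
      20 * b * (p₁ + 1) ≤ 20 * b * (k' + r + 2 + ρ))
    (hms : ∀ A : Finset (Fin p), A.card = ρ → m + s ≤ ∑ j ∈ A, d j) (hd : ∀ j, D ≤ d j)
    (hQ : Q ≤ D ^ 2)
    {ι : Type*} [Finite ι] {e : ι → ℕ}
    (he : ∀ i, 4 * D * e i ≤ Q ∨ D * e i ≤ σ * P)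
    {f : ι → MvPolynomial (Fin p ⊕ Fin (n + 1)) k}
    (hf : ∀ i, (f i).IsWeightedHomogeneous (wtP (n + 1) d) (e i))
    (hI : ringKrullDim (MvPolynomial (Fin (n + 1)) k ⧸ imI f) ≤ ((r + 1 : ℕ) : ℕ))
    {a : Fin p → (Fin (n + 1) →₀ ℕ) → K} {G : Finset (Fin p × (Fin (n + 1) →₀ ℕ))}
    (hcc : G.card ≤ c)
    (ha : AlgebraicIndependent k (fun s : {s // s ∈ jexpo n d ∧ s ∉ G} => a s.1.1 s.1.2)) :
    ∃ C : ℕ, ∀ (L : Type w) [Field L] [Algebra K L] [FiniteDimensional K L]
      [Algebra κ L] [IsScalarTower κ K L] [Algebra k L] [IsScalarTower k K L]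
      (x : Fin (n + 1) → L), x ≠ 0 →
      (∀ i, Fval (e i) (aWP d (fun j I => algebraMap K L (a j I)) f i) x = 0) →
      (JRank ρ f (Sum.elim
        (fun j => Fval (d j) (fun I => algebraMap K L (a j I)) x) x : Fin p ⊕ Fin (n + 1) → L) ∨
        (ρ = p ∧ NDegP f x)) →
      s * height κ x < ramDeg κ L K ∨
        (Q : ℤ) * height κ x ≤ C * finrank K L + P * ramDeg κ L K ∨
        CertW e (aWP d (fun j I => algebraMap K L (a j I)) f) b x := by
  classical
  have := Fintype.ofFinite ι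
  obtain ⟨C, b', hCb⟩ := exists_dataR.{u, v, w} (ρ := ρ) (Λ := Fin 0) hK htr hk hf hI
    (g := Fin.elim0) (E := Fin.elim0) (fun l => l.elim0) (S := ∅) Set.finite_empty ha
  obtain ⟨j₀, -, hj₀⟩ := Finset.exists_min_image (Finset.univ : Finset (Fin p)) d
    ⟨⟨0, hp⟩, Finset.mem_univ _⟩
  obtain ⟨M, hM⟩ : ∃ M, M = P / (23 * b) := ⟨_, rfl⟩
  have hMP : 23 * b * M ≤ P := by
    rw [hM]
    exact Nat.mul_div_le P (23 * b)
  refine ⟨d j₀ ^ 2 * ((27 * (∑ j, d j) ^ 2 + 2 * b * M + (3 + r) * ((3 + r) * (3 + r) + c)) *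
    (3 * C)), ?_⟩
  intro L _ _ _ _ _ _ _ x hx hfx hne
  obtain ⟨Y, c', ε, τ, η, hc, hYx, hh, hΔ, hR, hη, hε, hηε, hεs, hv, hr₀, hτ, hτs, hco, hz⟩ :=
    hCb L x hx hfx (fun l => l.elim0) (by
      rcases hne with h | ⟨h1, h2⟩
      · left
        obtain ⟨i, j, hdet⟩ := h
        rw [Fintype.card_fin, add_zero]
        exact ⟨fun a => Sum.inl (i a), j, hdet⟩
      · exact Or.inr ⟨Fintype.card_fin 0, h1, h2⟩)
  have hL : IsFF κ L := hK.of_finite
  have hchar : CharZero L := charZero_of_injective_algebraMap (algebraMap K L).injective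
  rcases lt_or_ge (s * height κ x) (ramDeg κ L K : ℤ) with hle | hgt
  · exact Or.inl hle
  right
  have hht : 0 ≤ height κ x := hL.height_nonneg hx
  have hεs' : ∑ᶠ w, (ε w : ℤ) ≤ C * finrank K L := by
    refine hεs.trans (le_of_eq ?_)
    have e1 : {w : Place κ L |
          (∀ v ∈ (∅ : Set (Place κ K)), ¬ (w.1.comap (algebraMap K L)).IsEquiv v.1) ∧
          ∃ l : Fin 0, w.1 (Fval ((Fin.elim0 : Fin 0 → ℕ) l)
            (aWP d (fun j I => algebraMap K L (a j I))
              (Fin.elim0 : Fin 0 → MvPolynomial (Fin p ⊕ Fin (n + 1)) k) l) x) <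
            vmax w.1 x ^ (Fin.elim0 : Fin 0 → ℕ) l} = ∅ := by
      refine Set.eq_empty_iff_forall_notMem.2 ?_
      rintro w ⟨-, l, -⟩
      exact l.elim0
    rw [e1, Set.ncard_empty]
    push_cast
    ring
  have hv' : ρ ≤ finrank L ((fU Y ⊔ fB Y (fun s : ↥G => algebraMap κ L (b' s)) ⊔ fL Y η) ⊓
      xsp d Y.x : Submodule L (ES (n + 1) d → L)) := by
    rw [Fintype.card_fin, add_zero] at hv
    exact hv
  have hdD : ∀ j, D ≤ d j := hd
  have hbσ : b ≤ σ * b := Nat.le_mul_of_pos_left _ (by omega)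
  have hbs : b * (s + 3) ≤ σ * b := by
    rw [mul_comm σ b]
    exact Nat.mul_le_mul_left _ hs
  have hbρ : 4 * (b * ρ) ≤ σ * b := by
    have h1 := Nat.mul_le_mul_left b h4
    have h2 : b * (4 * ρ) = 4 * (b * ρ) := by ring
    have h3 : b * σ = σ * b := by ring
    omega
  have h25 : 25 * (σ * b) ≤ D := by
    have h1 : 25 * σ * b = 25 * (σ * b) := by ring
    omega
  have hD1 : 1 ≤ D := by
    have h1 : 1 ≤ b := by omega
    omega
  have hmain := smallI_joint hL (r₀ := r) (b := b) (g := ρ) (k := k') (c := c) (l := ρ) (p₁ := p₁)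
    (q := s) (M := M) (D := ∑ j, d j) (d₀ := d j₀) (d := d) (Λ := Fin 0) hb hr hρ hρ
    (fun j => by
      have h1 := hdD j
      omega)
    (fun j => hν.trans (Nat.mul_le_mul_left _ (hdD j)))
    (fun j => by
      have h1 := hdD j
      rw [Fintype.card_fin]
      omega)
    (fun A hA => by
      have h1 := hms A hA
      have h2 : ρ * D ≤ ∑ j ∈ A, d j := by
        have h3 := Finset.card_nsmul_le_sum A d D (fun j _ => hdD j)
        rw [hA, smul_eq_mul] at h3
        exact h3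
      have h3 : max (m + s) (ρ * D) ≤ ∑ j ∈ A, d j := max_le h1 h2
      omega)
    hkc hkg (by
      have h1 : 2 + r + c = r + 2 + c := by omega
      rw [h1]
      exact hp₁) (by
      have h1 : b * (2 + r) + 21 * ((p₁ + 1) * (2 + r) + c + ρ) +
          20 * b * (ρ * (12 * (b * ρ) + 2 * b)) + 20 * b * (p₁ + 1) =
          b * (r + 2) + 21 * ((p₁ + 1) * (r + 2) + c + ρ) +
            20 * b * ρ * (12 * b * ρ + 2 * b) + 20 * b * (p₁ + 1) := by ring
      have h2 : 20 * b * (k' + (2 + r)) + 20 * b * ρ = 20 * b * (k' + r + 2 + ρ) := by ring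
      rw [h1, h2]
      exact hN)
    (fun j => hj₀ j (Finset.mem_univ j)) (hD1.trans (hdD j₀))
    (fun j => Finset.single_le_sum (f := d) (fun _ _ => Nat.zero_le _) (Finset.mem_univ j)) Y
    (β := fun s : ↥G => algebraMap κ L (b' s)) (by
      rw [Fintype.card_coe, Fintype.card_fin]
      omega)
    (fun s w => place_const_le w _) hη hε (t := Fin.elim0) hηε hv' hr₀
    (E₀ := C * finrank K L) (by positivity) (by
      rw [hR, hh]
      linarith) (Θ := ∑ᶠ w, (τ w : ℤ)) (finsum_nonneg fun w => Int.natCast_nonneg _)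
  have hF0 : (0 : ℤ) ≤ C * finrank K L := by positivity
  rcases hmain with h | ⟨j, ⟨a₁, A₁, P₁, h1, h2, h3, -, -, -, h7, h8, h9⟩, hbig⟩
  · left
    rw [hh, hR] at h
    have h1 : Y.Δ + C * finrank K L + ∑ᶠ w, (τ w : ℤ) ≤ 3 * C * finrank K L := by linarith
    have h2 : (0 : ℤ) ≤ (d j₀ : ℤ) ^ 2 * (27 * ((∑ j, d j : ℕ) : ℤ) ^ 2 +
        2 * b * (M : ℤ) + (3 + r) * ((3 + r) * (3 + r) + c)) := by positivity
    have h3 := mul_le_mul_of_nonneg_left h1 h2
    have h5 : ((23 * b * M : ℕ) : ℤ) * (ramDeg κ L K : ℤ) ≤ P * ramDeg κ L K :=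
      mul_le_mul_of_nonneg_right (by exact_mod_cast hMP) (Int.natCast_nonneg _)
    have h6 : (Q : ℤ) * height κ x ≤ (d j₀ : ℤ) ^ 2 * height κ x := by
      refine mul_le_mul_of_nonneg_right ?_ hht
      exact_mod_cast hQ.trans (Nat.pow_le_pow_left (hdD j₀) 2)
    push_cast at h2 h3 h5 h ⊢
    linarith
  · right
    have hcert : CertW e (aWP d (fun j I => algebraMap K L (a j I)) f) a₁ (Y.blk j).x := by
      refine stepCW (Y.blk j) h3 hL hτ hco hz (fun i => ?_) h7
      have h10 : 100 * b ≤ d j := by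
        have h11 := hdD j
        have h12 : b * 4 ≤ σ * b := by
          have h13 : b * (4 * 1) ≤ b * (4 * ρ) := Nat.mul_le_mul_left _ (Nat.mul_le_mul_left _ hρ)
          have h14 : b * (4 * ρ) = 4 * (b * ρ) := by ring
          omega
        omega
      refine smallI_small hL (by omega) h10 (Y.blk j) h1 h2 h3 h8 h9 (M := M) (Θ := ∑ᶠ w, (τ w : ℤ))
        (finsum_nonneg fun w => Int.natCast_nonneg _) ?_ ?_
      · have k1 : (0 : ℤ) ≤ (d j : ℤ) ^ 2 * ((27 * d j ^ 2 + 2 * b * M) * (C * finrank K L)) :=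
          mul_nonneg (by positivity) (mul_nonneg (by positivity) hF0)
        have k2 : (Y.blk j).Δ = Y.Δ := rfl
        have k3 : (Y.blk j).R = Y.R := rfl
        have k4 : height κ (Y.blk j).x = height κ Y.x := rfl
        rw [k2, k3, k4]
        linarith
      · rcases he i with h11 | h11
        · left
          have h12 : 25 * (σ * b) * e i ≤ D * e i := Nat.mul_le_mul_right _ h25
          have h13 : b * (s + 3) * e i ≤ σ * b * e i := Nat.mul_le_mul_right _ hbs
          have h14 : D ^ 2 ≤ d j ^ 2 := Nat.pow_le_pow_left (hdD j) 2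
          have h15 : 25 * (σ * b) * e i = 25 * (σ * b * e i) := by ring
          have h16 : 4 * D * e i = 4 * (D * e i) := by ring
          omega
        · right
          rw [hM, Nat.le_div_iff_mul_le (by omega)]
          have h12 : 25 * (σ * b) * e i ≤ D * e i := Nat.mul_le_mul_right _ h25
          have h13 : σ * (25 * (b * e i)) ≤ σ * P := by
            refine le_trans (le_of_eq ?_) (h12.trans h11)
            ring
          have h14 := Nat.le_of_mul_le_mul_left h13 (by omega)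
          have h15 : e i * (23 * b) = 23 * (b * e i) := by ring
          omega
    rw [← certW_smul (e := e) (b := b) hc, ← hYx]
    exact certW_mono h2 hcert

end Pool.Agent.Lib.MP_44a246_ntI
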