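import Mathlib
import Pool.Agent.Lib.MP_44a246_ntD.D10
import Pool.Agent.Lib.MP_44a246_ntE.E17
import Pool.Agent.Lib.MP_44a246_ntE.E30

/-!
Compactness, for points with `m` algebraically independent coordinates, if all but `s` of the
coefficients of the forms are algebraically independent.
-/

namespace Pool.Agent.Lib.MP_44a246_ntI

open Pool.Agent.Lib.MP_44a246_ntE
open Pool.Agent.Lib.MP_44a246_ntK
open Pool.Agent.Lib.MP_44a246_ntD
open Pool.Agent.Lib.MP_44a246_ntQ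
open Pool.Agent.Lib.MP_e52354_nt
open Pool.Agent.Lib.MP_44a246_nt
open Pool.Agent.Lib.MP_44a246_ntL
open Pool.Agent.Lib.MP_44a246_ntS
open Pool.Agent.Lib.MP_44a246_ntG
open Pool.Agent.Lib.MP_44a246_ntU

/-- The contradiction in an algebraically closed extension of the ultrapower. -/
private theorem excWK_aux {k k₂ L : Type*} [Field k] [CharZero k] [Field k₂] [CharZero k₂]
    [Field L] [CharZero L] [Algebra k k₂] [Algebra k₂ L] [Algebra k L] [IsScalarTower k k₂ L]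
    {Ω : Type*} [Field Ω] [IsAlgClosed Ω] [CharZero Ω] [Algebra k₂ Ω] [Algebra k Ω]
    [IsScalarTower k k₂ Ω]
    (ψ : UP L →+* Ω) (hψ : ∀ u : k₂, ψ (constHom (algebraMap k₂ L u)) = algebraMap k₂ Ω u)
    {n m p r b s : ℕ} {d : Fin p → ℕ}
    (hr : 2 ≤ r)
    (hd : 2 * r + s ≤ (∑ j, d j) + m + p) (hd1 : r + 1 ≤ ∑ j, d j)
    (hd2 : (p + 3) * (2 * b) ≤ (∑ j, d j) + p) (hdb : ∀ j, 2 * b ≤ d j) {ι : Type*} [Finite ι] {e : ι → ℕ}
    {f : ι → MvPolynomial (Fin p ⊕ Fin (n + 1)) k}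
    (hf : ∀ i, (f i).IsWeightedHomogeneous (wtP (n + 1) d) (e i))
    (hdim : ringKrullDim (MvPolynomial (Fin p ⊕ Fin (n + 1)) k ⧸ Ideal.span (Set.range f)) ≤
      ((r + 1 : ℕ) : ℕ))
    {a : Fin p → (Fin (n + 1) →₀ ℕ) → k₂}
    {P : Finset (Fin p × (Fin (n + 1) →₀ ℕ))} (hP : P.card ≤ s)
    (ha : AlgebraicIndependent k (fun s : {s // s ∈ jexpo n d ∧ s ∉ P} => a s.1.1 s.1.2))
    {l : Fin (n + 1)} {j : Fin m → Fin (n + 1)}
    {z : ℕ → Fin m → L} {x : ℕ → Fin (n + 1) → L}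
    (hz : ∀ H : MvPolynomial (Fin m) k₂, H ≠ 0 →
      ∃ N₀, ∀ N ≥ N₀, MvPolynomial.aeval (z N) H ≠ 0)
    (hx1 : ∀ N, CertW e (aWP d (fun j I => algebraMap k₂ L (a j I)) f) b (x N))
    (hxn : ∀ N, NDegP f (x N)) (hx2 : ∀ N, x N l = 1)
    (hx3 : ∀ N i, z N i = x N (j i)) : False := by
  have hψk : ∀ u : k, ψ (constHom (algebraMap k L u)) = algebraMap k Ω u := by
    intro u
    rw [IsScalarTower.algebraMap_apply k k₂ L, hψ, ← IsScalarTower.algebraMap_apply k k₂ Ω]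
  have hcg := certW_map ψ (certW_germ hx1)
  have hx0 : germHom (fun N => x N l) = 1 := by
    have : (fun N => x N l) = 1 := funext fun N => hx2 N
    rw [this, map_one]
  have hA : (fun (i : ι) (I : Fin (n + 1) →₀ ℕ) =>
      ψ (constHom (aWP d (fun j I => algebraMap k₂ L (a j I)) f i I))) =
      aWP d (fun j I => algebraMap k₂ Ω (a j I)) f := by
    funext i I
    refine (map_aWP d (fun j I => algebraMap k₂ L (a j I)) (ψ.comp constHom) hψk f i I).trans ?_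
    refine congrFun (congrFun (aWP_congr (fun j I _ => ?_) f) i) I
    exact hψ _
  rw [hA] at hcg
  refine no_certWK_closed hr hd hd1 hd2 hdb hf hdim (l := l) (j := j) hP ?_ (k₂ := k₂) (a₂ := a)
    (fun j I _ => rfl) ?_ ?_ (NDegP.germ ψ hψk hxn) hcg
  · have h1 := ha.map' (f := IsScalarTower.toAlgHom k k₂ Ω) (algebraMap k₂ Ω).injective
    exact h1
  · show ψ (germHom (fun N => x N l)) ≠ 0
    rw [hx0, map_one]
    exact one_ne_zero
  · have h1 := algIndep_germV ψ hψ (z := z) hz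
    convert h1 using 1
    funext i
    show ψ (germHom (fun N => x N (j i))) / ψ (germHom (fun N => x N l)) =
      ψ (germHom (fun N => z N i))
    rw [hx0, map_one, div_one]
    congr 2
    funext N
    exact (hx3 N i).symm

private theorem excWK_aux2 {k k₂ L : Type*} [Field k] [CharZero k] [Field k₂] [CharZero k₂]
    [Field L] [CharZero L] [Algebra k k₂] [Algebra k₂ L] [Algebra k L] [IsScalarTower k k₂ L]
    {Ω : Type*} [Field Ω] [IsAlgClosed Ω] [CharZero Ω]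
    (ψ : UP L →+* Ω)
    {n m p r b s : ℕ} {d : Fin p → ℕ}
    (hr : 2 ≤ r)
    (hd : 2 * r + s ≤ (∑ j, d j) + m + p) (hd1 : r + 1 ≤ ∑ j, d j)
    (hd2 : (p + 3) * (2 * b) ≤ (∑ j, d j) + p) (hdb : ∀ j, 2 * b ≤ d j) {ι : Type*} [Finite ι] {e : ι → ℕ}
    {f : ι → MvPolynomial (Fin p ⊕ Fin (n + 1)) k}
    (hf : ∀ i, (f i).IsWeightedHomogeneous (wtP (n + 1) d) (e i))
    (hdim : ringKrullDim (MvPolynomial (Fin p ⊕ Fin (n + 1)) k ⧸ Ideal.span (Set.range f)) ≤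
      ((r + 1 : ℕ) : ℕ))
    {a : Fin p → (Fin (n + 1) →₀ ℕ) → k₂}
    {P : Finset (Fin p × (Fin (n + 1) →₀ ℕ))} (hP : P.card ≤ s)
    (ha : AlgebraicIndependent k (fun s : {s // s ∈ jexpo n d ∧ s ∉ P} => a s.1.1 s.1.2))
    {l : Fin (n + 1)} {j : Fin m → Fin (n + 1)}
    {z : ℕ → Fin m → L} {x : ℕ → Fin (n + 1) → L}
    (hz : ∀ H : MvPolynomial (Fin m) k₂, H ≠ 0 →
      ∃ N₀, ∀ N ≥ N₀, MvPolynomial.aeval (z N) H ≠ 0)
    (hx1 : ∀ N, CertW e (aWP d (fun j I => algebraMap k₂ L (a j I)) f) b (x N))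
    (hxn : ∀ N, NDegP f (x N)) (hx2 : ∀ N, x N l = 1)
    (hx3 : ∀ N i, z N i = x N (j i)) : False := by
  let _ : Algebra k₂ Ω := (ψ.comp (constHom.comp (algebraMap k₂ L))).toAlgebra
  let _ : Algebra k Ω := ((algebraMap k₂ Ω).comp (algebraMap k k₂)).toAlgebra
  have t : IsScalarTower k k₂ Ω := IsScalarTower.of_algebraMap_eq fun u => rfl
  exact excWK_aux ψ (fun u => rfl) hr hd hd1 hd2 hdb hf hdim hP ha hz hx1 hxn hx2 hx3

/-- **Compactness.** -/
theorem exists_excWK {k K L : Type*} [Field k] [CharZero k] [Countable k] [Field K] [CharZero K]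
    [Field L] [CharZero L] [Algebra k K] [Algebra K L] [Algebra k L] [IsScalarTower k K L]
    {n m p r b s : ℕ} {d : Fin p → ℕ}
    (hr : 2 ≤ r)
    (hd : 2 * r + s ≤ (∑ j, d j) + m + p) (hd1 : r + 1 ≤ ∑ j, d j)
    (hd2 : (p + 3) * (2 * b) ≤ (∑ j, d j) + p) (hdb : ∀ j, 2 * b ≤ d j) {ι : Type*} [Finite ι] {e : ι → ℕ}
    {f : ι → MvPolynomial (Fin p ⊕ Fin (n + 1)) k}
    (hf : ∀ i, (f i).IsWeightedHomogeneous (wtP (n + 1) d) (e i))
    (hdim : ringKrullDim (MvPolynomial (Fin p ⊕ Fin (n + 1)) k ⧸ Ideal.span (Set.range f)) ≤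
      ((r + 1 : ℕ) : ℕ))
    {a : Fin p → (Fin (n + 1) →₀ ℕ) → K}
    {P : Finset (Fin p × (Fin (n + 1) →₀ ℕ))} (hP : P.card ≤ s)
    (ha : AlgebraicIndependent k (fun s : {s // s ∈ jexpo n d ∧ s ∉ P} => a s.1.1 s.1.2))
    (l : Fin (n + 1)) (j : Fin m → Fin (n + 1)) :
    ∃ g : MvPolynomial (Fin m) K, g ≠ 0 ∧ ∀ x : Fin (n + 1) → L,
      CertW e (aWP d (fun j I => algebraMap K L (a j I)) f) b x → NDegP f x → x l ≠ 0 →
        MvPolynomial.aeval (fun i => x (j i) / x l) g = 0 := by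
  classical
  -- the field of the coefficients
  set k₂ : IntermediateField k K := IntermediateField.adjoin k
    (Set.range fun I : ↥(jexpo n d) => a I.1.1 I.1.2) with hk₂
  have hc2 : Countable k₂ := countable_adjoin _
  obtain ⟨a₂, ha₂⟩ : ∃ a₂ : Fin p → (Fin (n + 1) →₀ ℕ) → k₂,
      ∀ j, ∀ I ∈ expo (Fin (n + 1)) (d j), (a₂ j I : K) = a j I :=
    ⟨fun j I => if hI : I ∈ expo (Fin (n + 1)) (d j) then ⟨a j I,
      IntermediateField.subset_adjoin k _ ⟨⟨(j, I), mem_jexpo.2 hI⟩, rfl⟩⟩ else 0,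
      fun j I hI => by simp only [dif_pos hI]⟩
  have ha' : AlgebraicIndependent k
      (fun s : {s // s ∈ jexpo n d ∧ s ∉ P} => a₂ s.1.1 s.1.2) := by
    refine AlgebraicIndependent.of_comp k₂.val ?_
    have h1 : (k₂.val ∘ fun s : {s // s ∈ jexpo n d ∧ s ∉ P} => a₂ s.1.1 s.1.2) =
        fun s : {s // s ∈ jexpo n d ∧ s ∉ P} => a s.1.1 s.1.2 := by
      funext I
      exact ha₂ I.1.1 I.1.2 (mem_jexpo.1 I.2.1)
    rw [h1]
    exact ha
  set S : Set (Fin m → L) := {z | ∃ x : Fin (n + 1) → L,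
    CertW e (aWP d (fun j I => algebraMap K L (a j I)) f) b x ∧ NDegP f x ∧ x l = 1 ∧
      ∀ i : Fin m, z i = x (j i)} with hS
  have key : ∃ g : MvPolynomial (Fin m) K, g ≠ 0 ∧ ∀ z ∈ S, MvPolynomial.aeval z g = 0 := by
    by_contra hcon
    push Not at hcon
    obtain ⟨z, hzS, hz⟩ := exists_generic_seqC (k := k₂) (L := L) (S := S) fun g hg => by
      obtain ⟨z, hz1, hz2⟩ := hcon g hg
      exact ⟨z, hz1, hz2⟩
    choose x hx1 hxn hx2 hx3 using hzS
    have hcU : CharZero (UP L) := charZero_of_injective_ringHom (constHom (L := L)).injective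
    have hcΩ : CharZero (AlgebraicClosure (UP L)) :=
      charZero_of_injective_ringHom (algebraMap (UP L) (AlgebraicClosure (UP L))).injective
    have hA : aWP d (fun j I => algebraMap K L (a j I)) f =
        aWP d (fun j I => algebraMap k₂ L (a₂ j I)) f := by
      refine aWP_congr (fun j I hI => ?_) f
      rw [← ha₂ j I hI]
      rfl
    rw [hA] at hx1
    exact excWK_aux2 (a := a₂) (l := l) (j := j) (z := z) (x := x)
      (algebraMap (UP L) (AlgebraicClosure (UP L))) hr hd hd1 hd2 hdb hf hdim hP ha' hz hx1 hxn hx2 hx3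
  obtain ⟨g, hg0, hg⟩ := key
  refine ⟨g, hg0, fun x hx hxn hx0 => ?_⟩
  exact hg _ ⟨fun k => (x l)⁻¹ * x k, (certW_smul (inv_ne_zero hx0)).2 hx,
    hxn.smul hf (inv_ne_zero hx0), inv_mul_cancel₀ hx0,
    fun i => div_eq_inv_mul _ _⟩

end Pool.Agent.Lib.MP_44a246_ntI
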