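import Mathlib
import Pool.Agent.Lib.MP_44a246_ntU.U17
import Pool.Agent.Lib.MP_44a246_ntD.D22
import Pool.Agent.Lib.MP_44a246_ntI.I12

/-!
The exceptional set, for several forms.
-/

namespace Pool.Agent.Lib.MP_44a246_ntI

open Pool.Agent.Lib.MP_44a246_ntE
open Pool.Agent.Lib.MP_44a246_ntK
open Pool.Agent.Lib.MP_44a246_ntD
open Pool.Agent.Lib.MP_44a246_ntQ
open Pool.Agent.Lib.MP_e52354_nt
open Pool.Agent.Lib.MP_44a246_nt
open Pool.Agent.Lib.MP_44a246_ntL
open Pool.Agent.Lib.MP_44a246_ntS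
open Pool.Agent.Lib.MP_44a246_ntG
open Pool.Agent.Lib.MP_44a246_ntU
open MvPolynomial

universe v w

/-- **The exceptional set**, for the points over algebraic extensions: it is given by finitely many
forms and its (affine) dimension is at most `m`. -/
theorem exists_excFormsWK {k : Type*} {K : Type v} [Field k] [CharZero k] [Countable k] [Field K]
    [CharZero K] [Algebra k K] {n m p r b s : ℕ} {d : Fin p → ℕ}
    (hr : 2 ≤ r)
    (hd : 2 * r + s ≤ (∑ j, d j) + m + p) (hd1 : r + 1 ≤ ∑ j, d j)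
    (hd2 : (p + 3) * (2 * b) ≤ (∑ j, d j) + p) (hdb : ∀ j, 2 * b ≤ d j) {ι : Type*} [Finite ι]
    {e : ι → ℕ} {f : ι → MvPolynomial (Fin p ⊕ Fin (n + 1)) k}
    (hf : ∀ i, (f i).IsWeightedHomogeneous (wtP (n + 1) d) (e i))
    (hdim : ringKrullDim (MvPolynomial (Fin p ⊕ Fin (n + 1)) k ⧸ Ideal.span (Set.range f)) ≤
      ((r + 1 : ℕ) : ℕ))
    {a : Fin p → (Fin (n + 1) →₀ ℕ) → K}
    {P : Finset (Fin p × (Fin (n + 1) →₀ ℕ))} (hP : P.card ≤ s)
    (ha : AlgebraicIndependent k (fun s : {s // s ∈ jexpo n d ∧ s ∉ P} => a s.1.1 s.1.2)) :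
    ∃ (s' : ℕ) (G : Fin s' → MvPolynomial (Fin (n + 1)) K), (∀ i, ∃ E, (G i).IsHomogeneous E) ∧
      ringKrullDim (MvPolynomial (Fin (n + 1)) K ⧸ Ideal.span (Set.range G)) ≤ ((m : ℕ) : ℕ) ∧
      ∀ (L : Type w) [Field L] [Algebra K L] [Algebra.IsAlgebraic K L] [Algebra k L]
        [IsScalarTower k K L] (x : Fin (n + 1) → L),
        CertW e (aWP d (fun j I => algebraMap K L (a j I)) f) b x → NDegP f x →
          ∀ i, aeval x (G i) = 0 := by
  have hex : ∀ (l : Fin (n + 1)) (j : Fin m → Fin (n + 1)),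
      ∃ g : MvPolynomial (Fin m) K, g ≠ 0 ∧ ∀ x : Fin (n + 1) → AlgebraicClosure K,
        CertW e (aWP d (fun j I => algebraMap K (AlgebraicClosure K) (a j I)) f) b x →
          NDegP f x → x l ≠ 0 → MvPolynomial.aeval (fun i => x (j i) / x l) g = 0 :=
    fun l j => exists_excWK hr hd hd1 hd2 hdb hf hdim hP ha l j
  choose g hg0 hg using hex
  have hex2 : ∀ (l : Fin (n + 1)) (j : Fin m → Fin (n + 1)),
      ∃ (E : ℕ) (G : MvPolynomial (Fin (n + 1)) K), G.IsHomogeneous E ∧
        ∀ {L : Type v} [Field L] [Algebra K L] (x : Fin (n + 1) → L),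
          (x l = 0 → aeval x G = 0) ∧
            (x l ≠ 0 → aeval x G = x l ^ E * aeval (fun i => x (j i) / x l) (g l j)) :=
    fun l j => exists_homogV (g l j) l j
  choose E G hGh hG using hex2
  let eq := Fintype.equivFin (Fin (n + 1) × (Fin m → Fin (n + 1)))
  refine ⟨_, fun i => G (eq.symm i).1 (eq.symm i).2, fun i => ⟨_, hGh _ _⟩, ?_, ?_⟩
  · refine dim_excE hg0 (E := E) (G := G) (fun l j L _ _ x hx => (hG l j x).2 hx) ?_
    intro l j
    refine Ideal.subset_span ⟨eq (l, j), ?_⟩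
    simp only [Equiv.symm_apply_apply]
  · intro L _ _ _ _ _ x hx hxn i
    let φ : L →ₐ[K] AlgebraicClosure K := IsAlgClosed.lift
    have hφk : ∀ u : k, φ.toRingHom (algebraMap k L u) = algebraMap k (AlgebraicClosure K) u := by
      intro u
      show φ (algebraMap k L u) = _
      rw [IsScalarTower.algebraMap_apply k K L, φ.commutes,
        ← IsScalarTower.algebraMap_apply k K (AlgebraicClosure K)]
    have h1 := certW_map φ.toRingHom hx
    have h2 : (fun i I => φ.toRingHom (aWP d (fun j I => algebraMap K L (a j I)) f i I)) =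
        aWP d (fun j I => algebraMap K (AlgebraicClosure K) (a j I)) f := by
      funext o I
      rw [map_aWP d _ φ.toRingHom hφk f o I]
      exact congrFun (congrFun (aWP_congr (fun j I _ => φ.commutes _) f) o) I
    rw [h2] at h1
    have : Infinite L := Infinite.of_injective (algebraMap K L) (algebraMap K L).injective
    have h1n := (nDegP_map φ.toRingHom hφk (x := x)).2 hxn
    have h3 : ∀ l j, aeval x (G l j) = 0 := by
      intro l j
      have h4 : aeval (fun j => φ.toRingHom (x j)) (G l j) = φ (aeval x (G l j)) := by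
        have h5 := congrArg (fun g => g (G l j)) (MvPolynomial.comp_aeval (R := K) (f := x) φ)
        exact h5.symm
      have h6 : aeval (fun j => φ.toRingHom (x j)) (G l j) = 0 := by
        by_cases hl : φ.toRingHom (x l) = 0
        · exact (hG l j (fun j => φ.toRingHom (x j))).1 hl
        · rw [(hG l j (fun j => φ.toRingHom (x j))).2 hl, hg l j _ h1 h1n hl, mul_zero]
      rw [h4] at h6
      exact (map_eq_zero φ).1 h6
    exact h3 _ _

end Pool.Agent.Lib.MP_44a246_ntI
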