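import Mathlib
import Pool.Agent.Lib.MP_44a246_ntI.I11
import Pool.Agent.Lib.MP_44a246_ntI.I13
import Pool.Agent.Lib.MP_44a246_ntR.R13
import Pool.Agent.Lib.MP_44a246_ntR.R25
import Pool.Agent.Lib.MP_44a246_ntI.I04
import Pool.Agent.Lib.MP_44a246_ntI.I05
import Pool.Agent.Lib.MP_e52354_ntR.H8

/-!
Algebraic points over function fields: generic sections of weighted projective varieties, the case
without boundary; lines or curves, the degree is larger than the dimension by a constant.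
-/

namespace Pool.Agent.Lib.MP_44a246_ntI

open Pool.Agent.Lib.MP_e52354_ntR
open Pool.Agent.Lib.MP_44a246_ntC
open Pool.Agent.Lib.MP_44a246_ntF
open Pool.Agent.Lib.MP_44a246_ntD
open Pool.Agent.Lib.MP_44a246_ntQ
open Pool.Agent.Lib.MP_44a246_nt
open Pool.Agent.Lib.MP_e52354_ntK
open Pool.Agent.Lib.MP_44a246_ntL
open Pool.Agent.Lib.MP_44a246_ntS
open Pool.Agent.Lib.MP_44a246_ntX
open Pool.Agent.Lib.MP_44a246_ntG
open Pool.Agent.Lib.MP_44a246_ntU
open Pool.Agent.Lib.MP_44a246_ntK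
open Pool.Agent.Lib.MP_44a246_ntR
open Pool.Agent.Lib.MP_44a246_ntE
open Pool.Agent.Lib.MP_e52354_nt
open MvPolynomial Module

universe u v w

/-- **Points of large height are in a closed set of small dimension**: lines, or curves; the degree
has to be larger than the dimension by a constant. -/
theorem slope_mainRI {κ : Type u} {K : Type v} [Field κ] [IsAlgClosed κ] [CharZero κ] [Field K]
    [CharZero K] [Algebra κ K] (htr : Cardinal.aleph0 ≤ Algebra.trdeg ℚ κ)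
    {t : K} (ht : Transcendental κ t) [FiniteDimensional (IntermediateField.adjoin κ {t}) K]
    {k : Type*} [Field k] [CharZero k] [Algebra k K] (hk : Algebra.trdeg ℚ k < Cardinal.aleph0)
    {n p r ρ σ D c s m P Q m' : ℕ} {d : Fin p → ℕ} {ι : Type*} [Finite ι] {e : ι → ℕ}
    {f : ι → MvPolynomial (Fin p ⊕ Fin (n + 1)) k}
    (hf : ∀ i, (f i).IsWeightedHomogeneous (Sum.elim d fun _ => 1) (e i))
    (hI : ringKrullDim (MvPolynomial (Fin (n + 1)) k ⧸
      (Ideal.span (Set.range f)).comap (rename (Sum.inr : Fin (n + 1) → Fin p ⊕ Fin (n + 1)))) ≤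
        ((r + 1 : ℕ) : WithBot ℕ∞))
    (hr1 : 1 ≤ r) (hρ1 : 1 ≤ ρ) (hρp : ρ ≤ p)
    (hms : ∀ A : Finset (Fin p), A.card = ρ → m + s ≤ ∑ j ∈ A, d j)
    (hd : (D = 0 ∧ (∀ j, 1 ≤ d j) ∧ 3 * r + 3 + c ≤ 2 * m + ρ ∧ p + 3 ≤ m + ρ ∧
        (r + p + 2 ≤ m ∨ 2 * r + c + 2 ≤ m + ρ ∨ 3 * r + 4 + c ≤ 2 * m + ρ) ∧
        (p + 6) * (m + ρ) + 2 * p * m + Q ≤ (m + ρ) ^ 2 + 9 + 5 * p ∧
        ∀ i, 2 * p * s * (e i + 1) < Q ∨ 2 * p * (e i + 1) ≤ P ∨ 2 * r + c + 2 ≤ m + ρ) ∨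
      (2 ≤ r ∧ 4 * ρ ≤ σ ∧ s + 3 ≤ σ ∧ 150 * σ ≤ D ∧ (∀ j, D ≤ d j) ∧ r + c ≤ ρ * D ∧
        r + c + 75 * ρ * σ ≤ m ∧ Q ≤ D ^ 2 ∧ ∀ i, 4 * D * e i ≤ Q ∨ D * e i ≤ σ * P))
    (hm' : ∀ A : Finset (Fin p), A.card = ρ → 2 * r + c ≤ (∑ j ∈ A, d j) + m' + ρ)
    (H : Fin p → MvPolynomial (Fin (n + 1)) K) (hH : ∀ j, (H j).IsHomogeneous (d j))
    (hgen : (Nat.card {I : Fin p × (Fin (n + 1) →₀ ℕ) // I.2.degree = d I.1} : Cardinal) ≤
      Algebra.trdeg k (IntermediateField.adjoin k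
        (Set.range fun I : {I : Fin p × (Fin (n + 1) →₀ ℕ) // I.2.degree = d I.1} =>
          (H I.1.1).coeff I.1.2)) + c) :
    ∃ (a : ℕ) (G : Fin a → MvPolynomial (Fin (n + 1)) K), (∀ i, ∃ E, (G i).IsHomogeneous E) ∧
      ringKrullDim (MvPolynomial (Fin (n + 1)) K ⧸ Ideal.span (Set.range G)) ≤
        (m' : WithBot ℕ∞) ∧
      ∃ C : ℕ, ∀ (L : Type w) [Field L] [Algebra K L] [FiniteDimensional K L] [Algebra κ L]
        [IsScalarTower κ K L] [Algebra k L] [IsScalarTower k K L] (x : Fin (n + 1) → L), x ≠ 0 →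
        (∀ i, aeval (Sum.elim (fun j => aeval x (H j)) x : Fin p ⊕ Fin (n + 1) → L) (f i) = 0) →
        ((∃ (i : Fin ρ → ι) (j : Fin ρ → Fin p), (Matrix.of fun a b =>
            aeval (Sum.elim (fun j => aeval x (H j)) x : Fin p ⊕ Fin (n + 1) → L)
              (pderiv (Sum.inl (j b)) (f (i a)))).det ≠ 0) ∨
          (ρ = p ∧ (D = 0 ∨ ringKrullDim (MvPolynomial (Fin p ⊕ Fin (n + 1)) k ⧸
              Ideal.span (Set.range f)) ≤ ((r + 1 : ℕ) : WithBot ℕ∞)) ∧
            ∀ j : Fin p, ∃ i, (∀ j' : Fin p, j' ≠ j → Sum.inl j' ∉ (f i).vars) ∧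
              ∃ τ : L, aeval (Sum.elim (fun _ => τ) x : Fin p ⊕ Fin (n + 1) → L) (f i) ≠ 0)) →
        ((s * height κ x < ramDeg κ L K ∨ (Q : ℤ) * height κ x ≤
            C * finrank K L + P * ramDeg κ L K) ∧
          (pointField K x = ⊤ → 2 * finrank K L ≤ s + 2 → 2 * P * (finrank K L - 1) < Q →
            height κ x ≤ C * finrank K L)) ∨
          (∀ i, aeval x (G i) = 0) ∧ (D = 0 →
            ∃ y z : Fin (n + 1) → L, LinearIndependent L ![y, z] ∧
              (∃ u v : L, x = u • y + v • z) ∧ ∀ (i : ι) (u v : L),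
                aeval (Sum.elim (fun j => aeval (u • y + v • z) (H j)) (u • y + v • z) :
                  Fin p ⊕ Fin (n + 1) → L) (f i) = 0) := by
  classical
  have hK : IsFF κ K := ⟨t, ht, inferInstance⟩
  rcases hd with ⟨hb, hd1, hN, hpm, hC, hQ, he⟩ | ⟨hr2, h4, hs3, hD150, hdD, hν, hmr, hQD, he⟩
  · subst hb
    obtain ⟨Q', hQ'⟩ : ∃ Q', (p + 6) * (m + ρ) + 2 * p * m + Q' = (m + ρ) ^ 2 + 9 + 5 * p :=
      ⟨(m + ρ) ^ 2 + 9 + 5 * p - ((p + 6) * (m + ρ) + 2 * p * m), by omega⟩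
    have hQQ : Q ≤ Q' := by omega
    obtain ⟨a, G, hG, hGd, C, hmain⟩ := slope_mainR.{u, v, w} htr ht hk hf hI hr1 hρ1 hd1 hms hN
      hpm hC hQ' (P := P) (fun i => by
        rcases he i with h | h
        · exact Or.inl (h.trans_le hQQ)
        · exact Or.inr h) (m' := m') (fun A hA => by
        have := hm' A hA
        omega) H hH hgen
    refine ⟨a, G, hG, hGd, C, ?_⟩
    intro L _ _ _ _ _ _ _ x hx hfx hgood
    have hL : IsFF κ L := hK.of_finite
    have hHt : 0 ≤ height κ x := hL.height_nonneg hx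
    rcases hmain L x hx hfx (by
      rcases hgood with h | ⟨h1, -, h2⟩
      · exact Or.inl h
      · exact Or.inr ⟨h1, h2⟩) with h | ⟨h1, h2⟩
    · left
      refine bounded_of_ram hK hx ?_
      rcases h.1 with h3 | h3
      · exact Or.inl h3
      · right
        exact (mul_le_mul_of_nonneg_right (by exact_mod_cast hQQ) hHt).trans h3
    · exact Or.inr ⟨h1, fun _ => h2⟩
  · obtain ⟨b, k', p₁, hb6, hbD, hkk, hkc, hkg, hp₁, hNN⟩ := exists_numbers (r := r) (c := c)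
      (s := s) (ρ := ρ) (σ := σ) (D := D) (m := m) hr2 hρ1 h4 hs3 hD150 hν hmr
    obtain ⟨G₀, hG₀, ha⟩ := exists_fewK (fun j I => (H j).coeff I) hgen
    have hf' : ∀ i, (f i).IsWeightedHomogeneous (wtP (n + 1) d) (e i) := hf
    have hI' : ringKrullDim (MvPolynomial (Fin (n + 1)) k ⧸ imI f) ≤ ((r + 1 : ℕ) : ℕ) := hI
    have hkc' : Countable k := countable_of_trdeg hk
    have hbσ : 4 * b ≤ σ * b := Nat.mul_le_mul_right _ (by omega)
    have hbσρ : 4 * (ρ * b) ≤ σ * b := by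
      have h1 := Nat.mul_le_mul_right b h4
      have h2 : 4 * ρ * b = 4 * (ρ * b) := by ring
      omega
    have h25 : 25 * (σ * b) ≤ D := by
      have h1 : 25 * σ * b = 25 * (σ * b) := by ring
      omega
    have hsumD : ∀ A : Finset (Fin p), A.card = ρ → D ≤ ∑ j ∈ A, d j := by
      intro A hA
      have h3 : ρ * D ≤ ∑ j ∈ A, d j := by
        have h4 := Finset.card_nsmul_le_sum A d D (fun j _ => hdD j)
        rw [hA, smul_eq_mul] at h4
        exact h4
      have h5 : 1 * D ≤ ρ * D := Nat.mul_le_mul_right _ hρ1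
      rw [one_mul] at h5
      exact h5.trans h3
    have hE1 : ∀ A : Finset (Fin p), A.card = ρ → r + 1 ≤ ∑ j ∈ A, d j := by
      intro A hA
      have h1 := hms A hA
      have h2 : 1 * 1 ≤ ρ * σ := Nat.mul_le_mul hρ1 (by omega)
      have h3 : 75 * ρ * σ = 75 * (ρ * σ) := by ring
      omega
    have hE2 : ∀ A : Finset (Fin p), A.card = ρ → (ρ + 3) * (2 * b) ≤ (∑ j ∈ A, d j) + ρ := by
      intro A hA
      have h1 := hsumD A hA
      have h2 : (ρ + 3) * (2 * b) = 2 * (ρ * b) + 6 * b := by ring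
      omega
    have hE3 : ∀ j, 2 * b ≤ d j := by
      intro j
      have h1 := hdD j
      omega
    obtain ⟨a₁, G₁, hG1, hd1', hF1⟩ := exists_excFormsW.{v, w} (b := b) (ρ := ρ) (m := m')
      (a := fun j I => (H j).coeff I) hr2 hm' hE1 hE2 hE3 hf' hI' hG₀ ha
    have hex : ∃ (a₂ : ℕ) (G₂ : Fin a₂ → MvPolynomial (Fin (n + 1)) K),
        (∀ i, ∃ E, (G₂ i).IsHomogeneous E) ∧
        ringKrullDim (MvPolynomial (Fin (n + 1)) K ⧸ Ideal.span (Set.range G₂)) ≤
          (m' : WithBot ℕ∞) ∧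
        (ρ = p → ringKrullDim (MvPolynomial (Fin p ⊕ Fin (n + 1)) k ⧸
              Ideal.span (Set.range f)) ≤ ((r + 1 : ℕ) : WithBot ℕ∞) →
          ∀ (L : Type w) [Field L] [Algebra K L] [Algebra.IsAlgebraic K L] [Algebra k L]
          [IsScalarTower k K L] (x : Fin (n + 1) → L),
          CertW e (aWP d (fun j I => algebraMap K L ((H j).coeff I)) f) b x → NDegP f x →
            ∀ i, aeval x (G₂ i) = 0) := by
      by_cases hcase : ρ = p ∧ ringKrullDim (MvPolynomial (Fin p ⊕ Fin (n + 1)) k ⧸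
              Ideal.span (Set.range f)) ≤ ((r + 1 : ℕ) : WithBot ℕ∞)
      · obtain ⟨h1, h2⟩ := hcase
        subst h1
        have hcu : (Finset.univ : Finset (Fin ρ)).card = ρ := by
          rw [Finset.card_univ, Fintype.card_fin]
        obtain ⟨a₂, G₂, h3, h4, h5⟩ := exists_excFormsWK.{v, w} (b := b) (m := m')
          (a := fun j I => (H j).coeff I) hr2 (hm' Finset.univ hcu) (hE1 _ hcu) (hE2 _ hcu) hE3
          hf' h2 hG₀ ha
        exact ⟨a₂, G₂, h3, h4, fun _ _ => h5⟩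
      · exact ⟨a₁, G₁, hG1, hd1', fun h1 h2 => absurd ⟨h1, h2⟩ hcase⟩
    obtain ⟨a₂, G₂, hG2, hd2', hF2⟩ := hex
    obtain ⟨a, G, hG, hdG, hvan⟩ := exists_unionL.{v, w} hG1 hG2 hd1' hd2'
    obtain ⟨C, hCC⟩ := heightI_base.{u, v, w} (κ := κ) (K := K) (ρ := ρ) (σ := σ) (D := D) (s := s)
      (P := P) (b := b) (k' := k') (p₁ := p₁) hK htr hk (hρ1.trans hρp) (by omega) hρ1 h4 hs3 hν
      hb6 hbD hkk.le hkc hkg hp₁ hNN hms hdD hQD he hf' hI' (a := fun j I => (H j).coeff I) hG₀ ha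
    refine ⟨a, G, hG, hdG, C, ?_⟩
    intro L _ _ _ _ _ _ _ x hx hfx hgood
    have hL : IsFF κ L := hK.of_finite
    have hval : ∀ (i : ι) (y : Fin (n + 1) → L),
        Fval (e i) (aWP d (fun j I => algebraMap K L ((H j).coeff I)) f i) y =
          aeval (Sum.elim (fun j => aeval y (H j)) y : Fin p ⊕ Fin (n + 1) → L) (f i) := by
      intro i y
      rw [show (fun j => aeval y (H j)) =
        fun j => Fval (d j) (fun I => algebraMap K L ((H j).coeff I)) y from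
        funext fun j => Pool.Agent.Lib.MP_44a246_ntU.aeval_eq_Fval (hH j) y]
      rw [Fval_aWP' hf']
    have hfx' : ∀ i, Fval (e i) (aWP d (fun j I => algebraMap K L ((H j).coeff I)) f i) x = 0 :=
      fun i => by rw [hval, hfx]
    have hev : (fun j => aeval x (H j)) =
        fun j => Fval (d j) (fun I => algebraMap K L ((H j).coeff I)) x :=
      funext fun j => Pool.Agent.Lib.MP_44a246_ntU.aeval_eq_Fval (hH j) x
    have hD0 : D ≠ 0 := by omega
    have hgood' : JRank ρ f (Sum.elim (fun j => Fval (d j)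
          (fun I => algebraMap K L ((H j).coeff I)) x) x : Fin p ⊕ Fin (n + 1) → L) ∨
        (ρ = p ∧ ringKrullDim (MvPolynomial (Fin p ⊕ Fin (n + 1)) k ⧸
              Ideal.span (Set.range f)) ≤ ((r + 1 : ℕ) : WithBot ℕ∞) ∧ NDegP f x) := by
      rcases hgood with h | ⟨h1, h2, h3⟩
      · left
        rw [hev] at h
        exact h
      · exact Or.inr ⟨h1, h2.resolve_left hD0, h3⟩
    rcases hCC L x hx hfx' (by
      rcases hgood' with h | ⟨h1, -, h2⟩
      · exact Or.inl h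
      · exact Or.inr ⟨h1, h2⟩) with h | h | h
    · exact Or.inl (bounded_of_ram hK hx (Or.inl h))
    · exact Or.inl (bounded_of_ram hK hx (Or.inr h))
    · right
      refine ⟨hvan L x ?_, fun h0 => absurd h0 hD0⟩
      rcases hgood' with h1 | ⟨h1, h2, h3⟩
      · exact Or.inl (hF1 L x h h1)
      · exact Or.inr (hF2 h1 h2 L x h h3)

end Pool.Agent.Lib.MP_44a246_ntI
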